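import Pool.Agent.W406.PX.Stmts
import Pool.Agent.H469R10.HO.Final
import Pool.Agent.H902R3.Task469C

/-!
# PX, TASK PR: mass of the primes of an interval which is not much shorter than a cell
-/

set_option autoImplicit false
set_option relaxedAutoImplicit false

open Finset

namespace Pool.Agent.W991.PX

open Pool.Agent.W406.PX
open Pool.Agent.H469R10.HO (Hoheisel BT2)

theorem Gs_eq (A B : ℕ) : Gs A B = ∑ p ∈ (Ioc A B).filter Nat.Prime, 1 / (Real.log p) ^ 2 := by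
  unfold Gs gw
  rw [Finset.sum_filter]

theorem pow_bd (q j : ℕ) (hj : 12 * q ≤ j) (hj1 : 1 ≤ j) : ((j:ℝ) + 3) ^ (2 * q) ≤ 2 * (j:ℝ) ^ (2 * q) := by
  have hj0 : (0:ℝ) < j := by exact_mod_cast hj1
  have e1 : ((j:ℝ) + 3) ^ (2 * q) = (j:ℝ) ^ (2 * q) * (1 + 3 / (j:ℝ)) ^ (2 * q) := by
    rw [← mul_pow]; congr 1; field_simp
  have e2 : (1 + 3 / (j:ℝ)) ^ (2 * q) ≤ 2 := by
    have h1 : 1 + 3 / (j:ℝ) ≤ Real.exp (3 / (j:ℝ)) := by
      have := Real.add_one_le_exp (3 / (j:ℝ)); linarith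
    have h2 : (1 + 3 / (j:ℝ)) ^ (2 * q) ≤ Real.exp (3 / (j:ℝ)) ^ (2 * q) :=
      pow_le_pow_left₀ (by positivity) h1 _
    rw [← Real.exp_nat_mul] at h2
    have h3 : ((2 * q : ℕ) : ℝ) * (3 / (j:ℝ)) ≤ 1 / 2 := by
      rw [mul_div_assoc', div_le_iff₀ hj0]
      have : ((12 * q : ℕ) : ℝ) ≤ j := by exact_mod_cast hj
      push_cast at this ⊢
      linarith
    have h4 : Real.exp (((2 * q : ℕ) : ℝ) * (3 / (j:ℝ))) ≤ Real.exp (1 / 2) := Real.exp_le_exp.mpr h3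
    have h5 : Real.exp (1 / 2) ≤ 2 := by
      have h6 : Real.exp (1 / 2) ^ 2 = Real.exp 1 := by
        rw [← Real.exp_nat_mul]; norm_num
      have h7 : Real.exp 1 < 4 := by
        have := Real.exp_one_lt_d9; linarith
      nlinarith [Real.exp_pos (1 / 2)]
    linarith
  rw [e1]
  have : (0:ℝ) ≤ (j:ℝ) ^ (2 * q) := by positivity
  nlinarith

theorem task_of (hH : Hoheisel) (hB : BT2) : TaskPr := by
  obtain ⟨δ, η₀, hδ, hδ1, hη₀, X₀, hX₀, hH⟩ := hH
  obtain ⟨Y₀, hY₀, hB⟩ := hB 1 one_pos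
  obtain ⟨q₀, hq₀⟩ := exists_nat_ge (1 / δ)
  refine ⟨q₀ + 1, fun q hq => ?_⟩
  have hq1 : 1 ≤ q := by omega
  have hqδ : (1:ℝ) ≤ q * δ := by
    have h1 : 1 / δ ≤ q := le_trans hq₀ (by exact_mod_cast (by omega : q₀ ≤ q))
    rw [div_le_iff₀ hδ] at h1
    linarith
  refine ⟨min (η₀ / (2 * q + 1) ^ 3) (1 / 6), lt_min (by positivity) (by norm_num), fun θ hθ => ?_⟩
  obtain ⟨J₁, hJ₁⟩ := exists_nat_ge ((Y₀ : ℝ) / θ)
  obtain ⟨J₂, hJ₂⟩ := exists_nat_ge (1 / θ ^ 2)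
  obtain ⟨J₃, hJ₃⟩ := exists_nat_ge (2 / θ)
  refine ⟨X₀ + J₁ + J₂ + J₃ + 12 * q + 3, fun j hj A B hA hB' hAB => ?_⟩
  have hj3 : 3 ≤ j := by omega
  have hj0 : (0:ℝ) < j := by exact_mod_cast (by omega : 0 < j)
  have hjr3 : (3:ℝ) ≤ j := by exact_mod_cast hj3
  have hj1 : (1:ℝ) ≤ j := by linarith
  -- naturals
  have hpow1 : (j:ℝ) ≤ (j:ℝ) ^ (2 * q - 1) := by
    calc (j:ℝ) = (j:ℝ) ^ 1 := (pow_one _).symm
      _ ≤ _ := pow_le_pow_right₀ hj1 (by omega)
  have hθj : θ * (j:ℝ) ≤ (B:ℝ) - A := le_trans (mul_le_mul_of_nonneg_left hpow1 hθ.le) hAB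
  have hBA : A < B := by
    have : (0:ℝ) < (B:ℝ) - A := lt_of_lt_of_le (by positivity) hθj
    have : (A:ℝ) < B := by linarith
    exact_mod_cast this
  obtain ⟨Y, rfl⟩ : ∃ Y, B = A + Y := ⟨B - A, by omega⟩
  have hYe : ((A + Y : ℕ) : ℝ) - A = Y := by push_cast; ring
  rw [hYe] at hAB hθj ⊢
  have hY0 : (0:ℝ) < Y := lt_of_lt_of_le (by positivity) hθj
  have hAr : (j:ℝ) ^ (2 * q) ≤ A := by exact_mod_cast hA
  have hBr : (A:ℝ) + Y ≤ ((j:ℝ) + 3) ^ (2 * q) := by exact_mod_cast hB'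
  have hp2 := pow_bd q j (by omega) (by omega)
  have hA2 : (A:ℝ) + Y ≤ 2 * (j:ℝ) ^ (2 * q) := le_trans hBr hp2
  have hjA : (j:ℝ) ≤ A := by
    refine le_trans ?_ hAr
    calc (j:ℝ) = (j:ℝ) ^ 1 := (pow_one _).symm
      _ ≤ _ := pow_le_pow_right₀ hj1 (by omega)
  have hjA' : j ≤ A := by exact_mod_cast hjA
  have hYA : Y ≤ A := by
    have : (Y:ℝ) ≤ A := by linarith
    exact_mod_cast this
  -- logs
  set L := Real.log j with hL
  have hLpos : 0 < L := Real.log_pos (by linarith)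
  have hlogU : ∀ n : ℕ, A ≤ n → n ≤ A + Y → Real.log n ≤ (2 * q + 1) * L := by
    intro n hn1 hn2
    have h1 : (n:ℝ) ≤ 2 * (j:ℝ) ^ (2 * q) := le_trans (by exact_mod_cast hn2) hA2
    have h2 : (0:ℝ) < n := lt_of_lt_of_le hj0 (le_trans hjA (by exact_mod_cast hn1))
    have h3 : Real.log n ≤ Real.log (2 * (j:ℝ) ^ (2 * q)) := Real.log_le_log h2 h1
    rw [Real.log_mul (by norm_num) (by positivity), Real.log_pow] at h3
    have h4 : Real.log 2 ≤ L := Real.log_le_log (by norm_num) (by linarith)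
    push_cast at h3
    rw [hL] at *
    linarith
  have hlogL : ∀ n : ℕ, A ≤ n → L ≤ Real.log n := by
    intro n hn1
    exact Real.log_le_log hj0 (le_trans hjA (by exact_mod_cast hn1))
  -- Hoheisel
  have hlow : η₀ * Y / ((2 * q + 1) * L) ≤ (((Ioc A (A + Y)).filter Nat.Prime).card : ℝ) := by
    have h1 : (A:ℝ) ^ (1 - δ) ≤ Y := by
      have hA3 : (A:ℝ) ≤ 2 * (j:ℝ) ^ (2 * q) := by linarith
      have h2 : (A:ℝ) ^ (1 - δ) ≤ (2 * (j:ℝ) ^ (2 * q)) ^ (1 - δ) :=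
        Real.rpow_le_rpow (by positivity) hA3 (by linarith)
      rw [Real.mul_rpow (by norm_num) (by positivity)] at h2
      have h3 : (2:ℝ) ^ (1 - δ) ≤ 2 := by
        calc (2:ℝ) ^ (1 - δ) ≤ (2:ℝ) ^ (1:ℝ) := Real.rpow_le_rpow_of_exponent_le (by norm_num) (by linarith)
          _ = 2 := Real.rpow_one 2
      have h4 : ((j:ℝ) ^ (2 * q)) ^ (1 - δ) ≤ (j:ℝ) ^ (2 * q - 2) := by
        rw [← Real.rpow_natCast, ← Real.rpow_natCast, ← Real.rpow_mul hj0.le]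
        refine Real.rpow_le_rpow_of_exponent_le hj1 ?_
        have e : ((2 * q - 2 : ℕ) : ℝ) = 2 * q - 2 := by
          rw [Nat.cast_sub (by omega)]; push_cast; ring
        rw [e]
        push_cast
        nlinarith
      have h5 : (A:ℝ) ^ (1 - δ) ≤ 2 * (j:ℝ) ^ (2 * q - 2) :=
        le_trans h2 (mul_le_mul h3 h4 (by positivity) (by norm_num))
      have h6 : 2 * (j:ℝ) ^ (2 * q - 2) ≤ θ * (j:ℝ) ^ (2 * q - 1) := by
        have e : (j:ℝ) ^ (2 * q - 1) = (j:ℝ) ^ (2 * q - 2) * j := by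
          rw [← pow_succ]; congr 1; omega
        rw [e]
        have h7 : 2 ≤ θ * j := by
          have : 2 / θ ≤ j := le_trans hJ₃ (by exact_mod_cast (by omega : J₃ ≤ j))
          rw [div_le_iff₀ hθ] at this
          linarith
        have h8 : (0:ℝ) ≤ (j:ℝ) ^ (2 * q - 2) := by positivity
        nlinarith
      linarith
    have h2 := hH A Y (by omega) h1 hYA
    refine le_trans ?_ h2
    have h3 : 0 < Real.log A := lt_of_lt_of_le hLpos (hlogL A le_rfl)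
    exact div_le_div_of_nonneg_left (by positivity) h3 (hlogU A le_rfl (by omega))
  -- Brun-Titchmarsh
  have hup : (((Ioc A (A + Y)).filter Nat.Prime).card : ℝ) ≤ 6 * Y / L := by
    have h1 : Y₀ ≤ Y := by
      have h2 : (Y₀:ℝ) / θ ≤ j := le_trans hJ₁ (by exact_mod_cast (by omega : J₁ ≤ j))
      rw [div_le_iff₀ hθ] at h2
      have : (Y₀:ℝ) ≤ Y := by linarith
      exact_mod_cast this
    have h2 := hB A Y h1
    refine le_trans h2 ?_
    have h3 : L / 2 ≤ Real.log Y := by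
      have h4 : 1 / θ ^ 2 ≤ j := le_trans hJ₂ (by exact_mod_cast (by omega : J₂ ≤ j))
      rw [div_le_iff₀ (by positivity)] at h4
      have h5 : (j:ℝ) ≤ (Y:ℝ) ^ 2 := by
        have h6 : (θ * j) ^ 2 ≤ (Y:ℝ) ^ 2 := pow_le_pow_left₀ (by positivity) hθj 2
        have h7 : (j:ℝ) ≤ (θ * j) ^ 2 := by nlinarith
        linarith
      have h6 : L ≤ Real.log ((Y:ℝ) ^ 2) := Real.log_le_log hj0 h5
      rw [Real.log_pow] at h6
      push_cast at h6
      linarith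
    have h4 : 0 < L / 2 := by positivity
    calc (2 + 1) * (Y:ℝ) / Real.log Y ≤ (2 + 1) * (Y:ℝ) / (L / 2) :=
          div_le_div_of_nonneg_left (by positivity) h4 h3
      _ = 6 * Y / L := by field_simp; ring
  -- sums
  have hq0 : (0:ℝ) < 2 * q + 1 := by positivity
  have hGlow : (((Ioc A (A + Y)).filter Nat.Prime).card : ℝ) * (1 / ((2 * q + 1) * L) ^ 2) ≤ Gs A (A + Y) := by
    rw [Gs_eq, ← nsmul_eq_mul]
    refine Finset.card_nsmul_le_sum _ _ _ fun p hp => ?_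
    simp only [mem_filter, mem_Ioc] at hp
    have h1 := hlogU p (by omega) (by omega)
    have h2 : 0 < Real.log p := lt_of_lt_of_le hLpos (hlogL p (by omega))
    exact one_div_le_one_div_of_le (by positivity) (pow_le_pow_left₀ h2.le h1 2)
  have hGup : Gs A (A + Y) ≤ (((Ioc A (A + Y)).filter Nat.Prime).card : ℝ) * (1 / L ^ 2) := by
    rw [Gs_eq, ← nsmul_eq_mul]
    refine Finset.sum_le_card_nsmul _ _ _ fun p hp => ?_
    simp only [mem_filter, mem_Ioc] at hp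
    have h1 := hlogL p (by omega)
    exact one_div_le_one_div_of_le (by positivity) (pow_le_pow_left₀ hLpos.le h1 2)
  set η := min (η₀ / (2 * q + 1) ^ 3) (1 / 6 : ℝ) with hη
  have hη1 : η ≤ η₀ / (2 * q + 1) ^ 3 := min_le_left _ _
  have hη2 : η ≤ 1 / 6 := min_le_right _ _
  have hηpos : 0 < η := lt_min (by positivity) (by norm_num)
  have hη3 : η ≤ η₀ / (2 * q + 1) := by
    refine le_trans hη1 ?_
    refine div_le_div_of_nonneg_left hη₀.le hq0 ?_
    have : (1:ℝ) ≤ 2 * q + 1 := by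
      have : (0:ℝ) ≤ q := by positivity
      linarith
    calc (2 * (q:ℝ) + 1) = (2 * (q:ℝ) + 1) ^ 1 := (pow_one _).symm
      _ ≤ _ := pow_le_pow_right₀ this (by norm_num)
  refine ⟨?_, ?_, ?_⟩
  · refine le_trans ?_ hGlow
    calc η * Y / L ^ 3 ≤ η₀ / (2 * q + 1) ^ 3 * Y / L ^ 3 := by gcongr
      _ = η₀ * Y / ((2 * q + 1) * L) * (1 / ((2 * q + 1) * L) ^ 2) := by
        field_simp
      _ ≤ _ := mul_le_mul_of_nonneg_right hlow (by positivity)
  · calc η * Gs A (A + Y) ≤ 1 / 6 * ((6 * Y / L) * (1 / L ^ 2)) := by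
          refine mul_le_mul hη2 (le_trans hGup (mul_le_mul_of_nonneg_right hup (by positivity))) ?_ (by norm_num)
          exact le_trans (by positivity) hGlow
      _ = Y / L ^ 3 := by field_simp
  · refine le_trans ?_ hlow
    calc η * Y / L ≤ η₀ / (2 * q + 1) * Y / L := by gcongr
      _ = η₀ * Y / ((2 * q + 1) * L) := by field_simp

theorem task : TaskPr := task_of Pool.Agent.H469R10.HO.hoheisel Pool.Agent.H902R3.C469.bt2

end Pool.Agent.W991.PX
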